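import Pool.Agent.X194.Champ.Digits

/-!
# Counting numbers whose window has a given value
-/

namespace Pool.Agent.X194.Champ

open Finset

lemma lift {w w' p c : ℕ} (h1 : w / 2 ^ (p + c) = w' / 2 ^ (p + c))
    (h2 : w / 2 ^ p % 2 ^ c = w' / 2 ^ p % 2 ^ c) : w / 2 ^ p = w' / 2 ^ p := by
  rw [pow_add, ← Nat.div_div_eq_div_mul, ← Nat.div_div_eq_div_mul] at h1
  rw [← Nat.mod_add_div (w / 2 ^ p) (2 ^ c), ← Nat.mod_add_div (w' / 2 ^ p) (2 ^ c), h1, h2]

lemma lift0 {w w' c : ℕ} (h1 : w / 2 ^ c = w' / 2 ^ c) (h2 : w % 2 ^ c = w' % 2 ^ c) : w = w' := by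
  rw [← Nat.mod_add_div w (2 ^ c), ← Nat.mod_add_div w' (2 ^ c), h1, h2]

lemma div_lt_pow {w ℓ p : ℕ} (h : w < 2 ^ ℓ) (hp : p ≤ ℓ) : w / 2 ^ p < 2 ^ (ℓ - p) := by
  rw [Nat.div_lt_iff_lt_mul (by positivity), ← pow_add]
  have : ℓ - p + p = ℓ := by omega
  rwa [this]

/-- one prescribed block of bits -/
lemma card_pat1 {ℓ p c u : ℕ} (h : p + c ≤ ℓ) :
    ((range (2 ^ ℓ)).filter fun w => w / 2 ^ p % 2 ^ c = u).card ≤ 2 ^ (ℓ - c) := by
  have h1 : ((range (2 ^ ℓ)).filter fun w => w / 2 ^ p % 2 ^ c = u).card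
      ≤ (range (2 ^ p) ×ˢ range (2 ^ (ℓ - (p + c)))).card := by
    apply card_le_card_of_injOn (fun w => (w % 2 ^ p, w / 2 ^ (p + c)))
    · intro w hw
      simp only [coe_filter, mem_range, Set.mem_setOf_eq] at hw
      simp only [coe_product, Set.mem_prod, mem_coe, mem_range]
      exact ⟨Nat.mod_lt _ (by positivity), div_lt_pow hw.1 h⟩
    · intro w hw w' hw' he
      simp only [coe_filter, mem_range, Set.mem_setOf_eq, Prod.mk.injEq] at hw hw' he
      exact lift0 (lift he.2 (hw.2.trans hw'.2.symm)) he.1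
  rw [card_product, card_range, card_range, ← pow_add] at h1
  have : p + (ℓ - (p + c)) = ℓ - c := by omega
  rwa [this] at h1

/-- two prescribed disjoint blocks of bits -/
lemma card_pat2 {ℓ p c u p' c' u' : ℕ} (h : p + c ≤ p') (h' : p' + c' ≤ ℓ) :
    ((range (2 ^ ℓ)).filter fun w => w / 2 ^ p % 2 ^ c = u ∧ w / 2 ^ p' % 2 ^ c' = u').card
      ≤ 2 ^ (ℓ - c - c') := by
  have h1 : ((range (2 ^ ℓ)).filter
      fun w => w / 2 ^ p % 2 ^ c = u ∧ w / 2 ^ p' % 2 ^ c' = u').card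
      ≤ (range (2 ^ p) ×ˢ (range (2 ^ (p' - (p + c))) ×ˢ range (2 ^ (ℓ - (p' + c'))))).card := by
    apply card_le_card_of_injOn
      (fun w => (w % 2 ^ p, w / 2 ^ (p + c) % 2 ^ (p' - (p + c)), w / 2 ^ (p' + c')))
    · intro w hw
      simp only [coe_filter, mem_range, Set.mem_setOf_eq] at hw
      simp only [coe_product, Set.mem_prod, mem_coe, mem_range]
      exact ⟨Nat.mod_lt _ (by positivity), Nat.mod_lt _ (by positivity), div_lt_pow hw.1 h'⟩
    · intro w hw w' hw' he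
      simp only [coe_filter, mem_range, Set.mem_setOf_eq, Prod.mk.injEq] at hw hw' he
      have e1 := lift he.2.2 (hw.2.2.trans hw'.2.2.symm)
      have e0 : p + c + (p' - (p + c)) = p' := by omega
      have e2 : w / 2 ^ (p + c) = w' / 2 ^ (p + c) := by
        apply lift (c := p' - (p + c)) _ he.2.1
        rw [e0]; exact e1
      exact lift0 (lift e2 (hw.2.1.trans hw'.2.1.symm)) he.1
  rw [card_product, card_product, card_range, card_range, card_range, ← pow_add, ← pow_add] at h1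
  have : p + (p' - (p + c) + (ℓ - (p' + c'))) = ℓ - c - c' := by omega
  rwa [this] at h1

/-- prescribed low bits and prescribed high part -/
lemma card_lowhigh {S : Finset ℕ} {j s x t : ℕ} (h : j ≤ s) :
    (S.filter fun v => v % 2 ^ j = x ∧ v / 2 ^ s = t).card ≤ 2 ^ (s - j) := by
  have h1 : (S.filter fun v => v % 2 ^ j = x ∧ v / 2 ^ s = t).card
      ≤ (range (2 ^ (s - j))).card := by
    apply card_le_card_of_injOn (fun w => w / 2 ^ j % 2 ^ (s - j))
    · intro w hw
      simp only [mem_coe, mem_range]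
      exact Nat.mod_lt _ (by positivity)
    · intro w hw w' hw' he
      simp only [coe_filter, Set.mem_setOf_eq] at hw hw' he
      have e0 : j + (s - j) = s := by omega
      apply lift0 (c := j) _ (hw.2.1.trans hw'.2.1.symm)
      apply lift (c := s - j) _ he
      rw [e0, hw.2.2, hw'.2.2]
  rwa [card_range] at h1

/-- the number of `m = u 2^r + v`, `v < 2^r`, whose window number `j` has the value `w` -/
def cnt (r u ℓ j w : ℕ) : ℕ := ((range (2 ^ r)).filter fun v => X ℓ j (u * 2 ^ r + v) = w).card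

/-- the same without the last number of the block -/
def cnt' (r u ℓ j w : ℕ) : ℕ :=
  ((range (2 ^ r - 1)).filter fun v => X ℓ j (u * 2 ^ r + v) = w).card

lemma cnt_split (r u ℓ j w : ℕ) :
    cnt r u ℓ j w = cnt' r u ℓ j w + if X ℓ j (u * 2 ^ r + (2 ^ r - 1)) = w then 1 else 0 := by
  unfold cnt cnt'
  have h : 2 ^ r = (2 ^ r - 1) + 1 := by
    have : 1 ≤ 2 ^ r := Nat.one_le_two_pow
    omega
  conv_lhs => rw [show range (2 ^ r) = range ((2 ^ r - 1) + 1) by rw [← h], range_add_one,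
    filter_insert]
  split_ifs with hc
  · rw [card_insert_of_notMem (by simp)]
  · rfl

lemma blk_div {u r v p : ℕ} (h : p ≤ r) : (u * 2 ^ r + v) / 2 ^ p = u * 2 ^ (r - p) + v / 2 ^ p := by
  have e : u * 2 ^ r = u * 2 ^ (r - p) * 2 ^ p := by
    rw [mul_assoc, ← pow_add]
    congr 2
    omega
  rw [e, Nat.add_comm, Nat.add_mul_div_right _ _ (by positivity), Nat.add_comm]

lemma blk_mod {u r v p : ℕ} (h : p ≤ r) : (u * 2 ^ r + v) % 2 ^ p = v % 2 ^ p := by
  have e : u * 2 ^ r = u * 2 ^ (r - p) * 2 ^ p := by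
    rw [mul_assoc, ← pow_add]
    congr 2
    omega
  rw [e, Nat.add_comm, Nat.add_mul_mod_self_right]

lemma cnt_inner {r u ℓ j w : ℕ} (hu : 1 ≤ u) (h1 : ℓ ≤ j) (h2 : j ≤ r) :
    cnt r u ℓ j w ≤ 2 ^ (r - ℓ) := by
  unfold cnt
  refine le_trans (card_le_card ?_) (card_pat1 (ℓ := r) (p := j - ℓ) (c := ℓ) (u := w) (by omega))
  intro v hv
  rw [mem_filter, mem_range] at hv ⊢
  refine ⟨hv.1, ?_⟩
  rw [← hv.2, X_inner h1 (by rw [dl_block hu hv.1]; omega), blk_div (by omega)]
  have e : u * 2 ^ (r - (j - ℓ)) = u * 2 ^ (r - j) * 2 ^ ℓ := by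
    rw [mul_assoc, ← pow_add]
    congr 2
    omega
  rw [e, Nat.add_comm, Nat.add_mul_mod_self_right]

lemma cnt'_cross {r u ℓ j w : ℕ} (hu : 1 ≤ u) (hj : 1 ≤ j) (hc : j + dl u ≤ ℓ) (hr : ℓ ≤ r) :
    cnt' r u ℓ j w ≤ if w / 2 ^ (ℓ - j - dl u) % 2 ^ dl u = u then 2 ^ (r + dl u - ℓ) else 0 := by
  have hc1 := dl_pos hu
  have key : ∀ v, v < 2 ^ r - 1 → X ℓ j (u * 2 ^ r + v) = v % 2 ^ j * 2 ^ (ℓ - j)
      + (u * 2 ^ (ℓ - j - dl u) + (v + 1) / 2 ^ (r - (ℓ - j - dl u))) := by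
    intro v hv
    have d1 : dl (u * 2 ^ r + v) = dl u + r := dl_block hu (by omega)
    have d2 : dl (u * 2 ^ r + v + 1) = dl u + r := by
      rw [add_assoc]
      exact dl_block hu (by omega)
    rw [X_cross (by omega) (by omega) (by omega), d2, blk_mod (by omega), add_assoc,
      show dl u + r - (ℓ - j) = r - (ℓ - j - dl u) by omega, blk_div (by omega)]
    congr 4
    omega
  have bnd : ∀ v, v < 2 ^ r - 1 →
      (v + 1) / 2 ^ (r - (ℓ - j - dl u)) < 2 ^ (ℓ - j - dl u) := by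
    intro v hv
    have := div_lt_pow (w := v + 1) (ℓ := r) (p := r - (ℓ - j - dl u)) (by omega) (by omega)
    rwa [show r - (r - (ℓ - j - dl u)) = ℓ - j - dl u by omega] at this
  have e1 : 2 ^ (ℓ - j) = 2 ^ dl u * 2 ^ (ℓ - j - dl u) := by
    rw [← pow_add]
    congr 1
    omega
  -- the part of the window inside the next number
  have key2 : ∀ v, v < 2 ^ r - 1 → X ℓ j (u * 2 ^ r + v) / 2 ^ (ℓ - j - dl u)
      = v % 2 ^ j * 2 ^ dl u + u := by
    intro v hv
    rw [key v hv, e1, show v % 2 ^ j * (2 ^ dl u * 2 ^ (ℓ - j - dl u)) + (u * 2 ^ (ℓ - j - dl u)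
      + (v + 1) / 2 ^ (r - (ℓ - j - dl u))) = (v + 1) / 2 ^ (r - (ℓ - j - dl u))
      + (v % 2 ^ j * 2 ^ dl u + u) * 2 ^ (ℓ - j - dl u) by ring,
      Nat.add_mul_div_right _ _ (by positivity), Nat.div_eq_of_lt (bnd v hv), zero_add]
  have hul := lt_pow_dl u
  split_ifs with hp
  · unfold cnt'
    have h1 : ((range (2 ^ r - 1)).filter fun v => X ℓ j (u * 2 ^ r + v) = w).card
        ≤ ((range (2 ^ r)).filter fun v => v % 2 ^ j = (w / 2 ^ (ℓ - j) + 1) % 2 ^ j ∧
          v / 2 ^ (r - (ℓ - j - dl u)) = w % 2 ^ (ℓ - j - dl u)).card := by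
      apply card_le_card_of_injOn (fun v => v + 1)
      · intro v hv
        simp only [coe_filter, mem_range, Set.mem_setOf_eq] at hv ⊢
        refine ⟨by omega, ?_, ?_⟩
        · have h3 := key2 v hv.1
          rw [hv.2] at h3
          have h4 : w / 2 ^ (ℓ - j) = v % 2 ^ j := by
            rw [e1, mul_comm, ← Nat.div_div_eq_div_mul, h3, Nat.add_comm,
              Nat.add_mul_div_right _ _ (by positivity), Nat.div_eq_of_lt hul, zero_add]
          rw [h4, Nat.mod_add_mod]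
        · rw [← hv.2, key v hv.1, e1, show v % 2 ^ j * (2 ^ dl u * 2 ^ (ℓ - j - dl u))
            + (u * 2 ^ (ℓ - j - dl u) + (v + 1) / 2 ^ (r - (ℓ - j - dl u)))
            = (v + 1) / 2 ^ (r - (ℓ - j - dl u))
            + (v % 2 ^ j * 2 ^ dl u + u) * 2 ^ (ℓ - j - dl u) by ring,
            Nat.add_mul_mod_self_right, Nat.mod_eq_of_lt (bnd v hv.1)]
      · intro a _ b _ h
        simpa using h
    refine h1.trans ((card_lowhigh (by omega)).trans (le_of_eq ?_))
    congr 1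
    omega
  · apply le_of_eq
    unfold cnt'
    rw [card_eq_zero, filter_eq_empty_iff]
    intro v hv he
    rw [mem_range] at hv
    apply hp
    rw [← he, key2 v hv, Nat.add_comm, Nat.add_mul_mod_self_right, Nat.mod_eq_of_lt hul]

lemma cnt'_late {r u ℓ j w : ℕ} (hu : 1 ≤ u) (hj : 1 ≤ j) (hc : ℓ < j + dl u) (hr : ℓ ≤ r)
    (hjl : j < ℓ) : cnt' r u ℓ j w ≤ 2 ^ (r + dl u - ℓ) := by
  unfold cnt'
  have h1 : ((range (2 ^ r - 1)).filter fun v => X ℓ j (u * 2 ^ r + v) = w).card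
      ≤ (range (2 ^ (r - j))).card := by
    apply card_le_card_of_injOn (fun v => v / 2 ^ j)
    · intro v hv
      simp only [coe_filter, mem_range, Set.mem_setOf_eq, mem_coe] at hv ⊢
      exact div_lt_pow (by omega) (by omega)
    · intro v hv v' hv' he
      simp only [coe_filter, mem_range, Set.mem_setOf_eq] at hv hv' he
      apply lift0 he
      have key : ∀ v, v < 2 ^ r - 1 → X ℓ j (u * 2 ^ r + v) / 2 ^ (ℓ - j) = v % 2 ^ j := by
        intro v hv
        have d1 : dl (u * 2 ^ r + v) = dl u + r := dl_block hu (by omega)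
        have d2 : dl (u * 2 ^ r + v + 1) = dl u + r := by
          rw [add_assoc]
          exact dl_block hu (by omega)
        rw [X_cross (by omega) (by omega) (by omega), d2, blk_mod (by omega), Nat.add_comm,
          Nat.add_mul_div_right _ _ (by positivity)]
        have h5 : (u * 2 ^ r + v + 1) / 2 ^ (dl u + r - (ℓ - j)) < 2 ^ (ℓ - j) := by
          have h6 := lt_pow_dl (u * 2 ^ r + v + 1)
          rw [d2] at h6
          have := div_lt_pow (p := dl u + r - (ℓ - j)) h6 (by omega)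
          rwa [show dl u + r - (dl u + r - (ℓ - j)) = ℓ - j by omega] at this
        rw [Nat.div_eq_of_lt h5, zero_add]
      rw [← key v hv.1, ← key v' hv'.1, hv.2, hv'.2]
  rw [card_range] at h1
  exact h1.trans (Nat.pow_le_pow_right (by norm_num) (by omega))

lemma cnt_top {r u ℓ j w : ℕ} (hu : 1 ≤ u) (h1 : r < j) (h2 : j ≤ dl u + r) (hr : ℓ ≤ r) :
    cnt r u ℓ j w ≤ 2 ^ (r + dl u - ℓ) := by
  unfold cnt
  rcases le_or_gt (j - ℓ) r with hp | hp
  · have h3 : ((range (2 ^ r)).filter fun v => X ℓ j (u * 2 ^ r + v) = w).card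
        ≤ (range (2 ^ (j - ℓ))).card := by
      apply card_le_card_of_injOn (fun v => v % 2 ^ (j - ℓ))
      · intro v hv
        simp only [mem_coe, mem_range]
        exact Nat.mod_lt _ (by positivity)
      · intro v hv v' hv' he
        simp only [coe_filter, mem_range, Set.mem_setOf_eq] at hv hv' he
        refine lift0 ?_ he
        have key : ∀ v, v < 2 ^ r → X ℓ j (u * 2 ^ r + v) % 2 ^ (r - (j - ℓ)) = v / 2 ^ (j - ℓ) := by
          intro v hv
          rw [X_inner (by omega) (by rw [dl_block hu hv]; omega),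
            Nat.mod_mod_of_dvd _ (Nat.pow_dvd_pow 2 (by omega)), blk_div hp, Nat.add_comm,
            Nat.add_mul_mod_self_right, Nat.mod_eq_of_lt (div_lt_pow hv hp)]
        rw [← key v hv.1, ← key v' hv'.1, hv.2, hv'.2]
    rw [card_range] at h3
    exact h3.trans (Nat.pow_le_pow_right (by norm_num) (by omega))
  · refine (card_filter_le _ _).trans ?_
    rw [card_range]
    exact Nat.pow_le_pow_right (by norm_num) (by omega)

/-- general bound -/
lemma cnt_le {r u ℓ j w : ℕ} (hu : 1 ≤ u) (h1 : 1 ≤ j) (h2 : j ≤ dl u + r) (hr : ℓ ≤ r) :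
    cnt r u ℓ j w ≤ 2 ^ (r + dl u - ℓ) + 1 := by
  have hc := dl_pos hu
  rcases lt_or_ge j ℓ with hj | hj
  · rw [cnt_split]
    have h3 : cnt' r u ℓ j w ≤ 2 ^ (r + dl u - ℓ) := by
      rcases le_or_gt (j + dl u) ℓ with h | h
      · refine (cnt'_cross hu h1 h hr).trans ?_
        split_ifs
        · exact le_rfl
        · exact Nat.zero_le _
      · exact cnt'_late hu h1 h hr hj
    split_ifs <;> omega
  · rcases le_or_gt j r with h | h
    · have h3 := cnt_inner (w := w) hu hj h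
      have h4 : 2 ^ (r - ℓ) ≤ 2 ^ (r + dl u - ℓ) := Nat.pow_le_pow_right (by norm_num) (by omega)
      omega
    · have := cnt_top (w := w) hu h h2 hr
      omega

lemma X_lt (ℓ j m : ℕ) : X ℓ j m < 2 ^ ℓ := W_lt _ _

lemma sum_cnt (r u ℓ j : ℕ) : ∑ w ∈ range (2 ^ ℓ), cnt r u ℓ j w = 2 ^ r := by
  unfold cnt
  rw [← card_eq_sum_card_fiberwise, card_range]
  intro v _
  simp only [coe_range, Set.mem_Iio]
  exact X_lt _ _ _

end Pool.Agent.X194.Champ
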