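import Mathlib

/-!
# Binary Champernowne digits: positions and windows
-/

namespace Pool.Agent.X194.Champ

open Finset

/-- the binary expansion of `m`, most significant digit first -/
def bin (m : ℕ) : List ℕ := (Nat.digits 2 m).reverse

/-- the concatenation of the binary expansions of `1, 2, …, n` -/
def concat (n : ℕ) : List ℕ := (List.range' 1 n).flatMap bin

/-- the `n`-th digit (`n = 0, 1, 2, …`) of the concatenation of the binary expansions of
`1, 2, 3, …` -/
def digit (n : ℕ) : ℕ := (concat (n + 1)).getD n 0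

/-- number of binary digits -/
def dl (m : ℕ) : ℕ := (Nat.digits 2 m).length

/-- starting position of the expansion of `m` -/
def pos (m : ℕ) : ℕ := ∑ j ∈ range m, dl j

lemma pos_succ (m : ℕ) : pos (m + 1) = pos m + dl m := by
  rw [pos, sum_range_succ, ← pos]

lemma dl_le_iff {m k : ℕ} : dl m ≤ k ↔ m < 2 ^ k :=
  Nat.digits_length_le_iff (by norm_num) m

lemma lt_dl_iff {m k : ℕ} : k < dl m ↔ 2 ^ k ≤ m :=
  Nat.lt_digits_length_iff (by norm_num) m

lemma dl_zero : dl 0 = 0 := by simp [dl]

lemma dl_pos {m : ℕ} (h : 1 ≤ m) : 1 ≤ dl m := lt_dl_iff.2 (by simpa using h)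

lemma lt_pow_dl (m : ℕ) : m < 2 ^ dl m := dl_le_iff.1 le_rfl

lemma dl_block {u r v : ℕ} (hu : 1 ≤ u) (hv : v < 2 ^ r) : dl (u * 2 ^ r + v) = dl u + r := by
  apply le_antisymm
  · rw [dl_le_iff, pow_add]
    have := lt_pow_dl u
    have h2 : (u + 1) * 2 ^ r ≤ 2 ^ dl u * 2 ^ r := Nat.mul_le_mul_right _ this
    have h3 : (u + 1) * 2 ^ r = u * 2 ^ r + 2 ^ r := by ring
    omega
  · have h1 : dl u + r - 1 < dl (u * 2 ^ r + v) := by
      rw [lt_dl_iff]
      have h0 := dl_pos hu
      have h2 : dl u + r - 1 = (dl u - 1) + r := by omega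
      rw [h2, pow_add]
      have h3 : 2 ^ (dl u - 1) ≤ u := lt_dl_iff.1 (by omega)
      have h4 := Nat.mul_le_mul_right (2 ^ r) h3
      omega
    omega

lemma bin_length (m : ℕ) : (bin m).length = dl m := by simp [bin, dl]

lemma concat_succ (n : ℕ) : concat (n + 1) = concat n ++ bin (n + 1) := by
  unfold concat
  rw [List.range'_1_concat, List.flatMap_append]
  simp [add_comm]

lemma concat_length (n : ℕ) : (concat n).length = pos (n + 1) := by
  induction n with
  | zero => simp [concat, pos, dl_zero]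
  | succ n ih => rw [concat_succ, List.length_append, ih, bin_length, ← pos_succ]

lemma pos_ge (n : ℕ) : n ≤ pos (n + 1) := by
  induction n with
  | zero => simp
  | succ n ih =>
    rw [pos_succ]
    have := dl_pos (m := n + 1) (by omega)
    omega

lemma pos_mono {a b : ℕ} (h : a ≤ b) : pos a ≤ pos b :=
  sum_le_sum_of_subset (range_subset_range.2 h)

lemma concat_getD {n n' t : ℕ} (h : n ≤ n') (ht : t < pos (n + 1)) :
    (concat n').getD t 0 = (concat n).getD t 0 := by
  induction n', h using Nat.le_induction with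
  | base => rfl
  | succ k hk ih =>
    rw [concat_succ, List.getD_append _ _ _ _ ?_, ih]
    rw [concat_length]
    exact ht.trans_le (pos_mono (by omega))

lemma digit_eq {m i : ℕ} (hi : i < dl m) : digit (pos m + i) = m / 2 ^ (dl m - 1 - i) % 2 := by
  have hm : 1 ≤ m := by
    rcases Nat.eq_zero_or_pos m with rfl | h
    · rw [dl_zero] at hi; omega
    · exact h
  obtain ⟨m', rfl⟩ : ∃ m', m = m' + 1 := ⟨m - 1, by omega⟩
  have h1 : pos (m' + 1) + i < pos (m' + 1 + 1) := by rw [pos_succ (m' + 1)]; omega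
  unfold digit
  have h2 : (concat (pos (m' + 1) + i + 1)).getD (pos (m' + 1) + i) 0
      = (concat (m' + 1)).getD (pos (m' + 1) + i) 0 := by
    rcases le_total (m' + 1) (pos (m' + 1) + i + 1) with h | h
    · exact concat_getD h h1
    · exact (concat_getD h (by
        have := pos_ge (pos (m' + 1) + i + 1)
        omega)).symm
  rw [h2, concat_succ, List.getD_append_right _ _ _ _ (by rw [concat_length]; omega), concat_length,
    Nat.add_sub_cancel_left]
  unfold bin
  rw [List.getD_eq_getElem _ _ (by simpa [dl] using hi), List.getElem_reverse]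
  have h3 := Nat.getD_digits (m' + 1) (dl (m' + 1) - 1 - i) (b := 2) (le_refl 2)
  rw [← h3, List.getD_eq_getElem]
  rfl

/-- the window of length `ℓ` starting at position `l`, read as a number -/
def W : ℕ → ℕ → ℕ
  | 0, _ => 0
  | (ℓ + 1), l => 2 * W ℓ l + digit (l + ℓ)

lemma mem_concat_le {k a : ℕ} (h : a ∈ concat k) : a ≤ 1 := by
  unfold concat at h
  rw [List.mem_flatMap] at h
  obtain ⟨b, -, hb⟩ := h
  unfold bin at hb
  rw [List.mem_reverse] at hb
  have := Nat.digits_lt_base (by norm_num : 1 < 2) hb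
  omega

lemma digit_le (n : ℕ) : digit n ≤ 1 := by
  unfold digit
  by_cases h : n < (concat (n + 1)).length
  · rw [List.getD_eq_getElem _ _ h]
    exact mem_concat_le (List.getElem_mem h)
  · rw [List.getD_eq_default _ _ (by omega)]
    omega

lemma W_lt (ℓ l : ℕ) : W ℓ l < 2 ^ ℓ := by
  induction ℓ with
  | zero => simp [W]
  | succ ℓ ih =>
    have := digit_le (l + ℓ)
    rw [W, pow_succ]
    omega

lemma W_add (a b l : ℕ) : W (a + b) l = W a l * 2 ^ b + W b (l + a) := by
  induction b with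
  | zero => simp [W]
  | succ b ih =>
    rw [← add_assoc, W, ih, W, pow_succ, add_assoc l a b]
    ring

lemma W_inner {m ℓ s : ℕ} (h : s + ℓ ≤ dl m) :
    W ℓ (pos m + s) = m / 2 ^ (dl m - s - ℓ) % 2 ^ ℓ := by
  induction ℓ with
  | zero => simp [W, Nat.mod_one]
  | succ ℓ ih =>
    rw [W, ih (by omega), add_assoc, digit_eq (by omega)]
    have e1 : dl m - s - ℓ = (dl m - s - (ℓ + 1)) + 1 := by omega
    have e2 : dl m - 1 - (s + ℓ) = dl m - s - (ℓ + 1) := by omega
    rw [e1, e2, pow_succ 2 (dl m - s - (ℓ + 1)), ← Nat.div_div_eq_div_mul, pow_succ' 2 ℓ, Nat.mod_mul]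
    ring

/-- value of the window which starts `j` digits before the end of the expansion of `m` -/
def X (ℓ j m : ℕ) : ℕ := W ℓ (pos (m + 1) - j)

lemma X_inner {ℓ j m : ℕ} (h1 : ℓ ≤ j) (h2 : j ≤ dl m) : X ℓ j m = m / 2 ^ (j - ℓ) % 2 ^ ℓ := by
  unfold X
  have e : pos (m + 1) - j = pos m + (dl m - j) := by rw [pos_succ]; omega
  rw [e, W_inner (by omega)]
  congr 3
  omega

lemma X_cross {ℓ j m : ℕ} (h1 : j < ℓ) (h2 : j ≤ dl m) (h3 : ℓ - j ≤ dl (m + 1)) :
    X ℓ j m = m % 2 ^ j * 2 ^ (ℓ - j) + (m + 1) / 2 ^ (dl (m + 1) - (ℓ - j)) := by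
  unfold X
  have e : pos (m + 1) - j = pos m + (dl m - j) := by rw [pos_succ]; omega
  have e2 : ℓ = j + (ℓ - j) := by omega
  rw [e]
  conv_lhs => rw [e2]
  rw [W_add, W_inner (by omega)]
  have e3 : dl m - (dl m - j) - j = 0 := by omega
  have e4 : pos m + (dl m - j) + j = pos (m + 1) + 0 := by rw [pos_succ]; omega
  rw [e3, pow_zero, Nat.div_one, e4, W_inner (by omega), Nat.sub_zero]
  congr 1
  apply Nat.mod_eq_of_lt
  rw [Nat.div_lt_iff_lt_mul (by positivity), ← pow_add]
  have := lt_pow_dl (m + 1)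
  have e5 : ℓ - j + (dl (m + 1) - (ℓ - j)) = dl (m + 1) := by omega
  rwa [e5]

/-- summation over positions, number by number -/
lemma sum_pos {β : Type*} [AddCommMonoid β] (f : ℕ → β) (M : ℕ) :
    ∑ l ∈ range (pos M), f l = ∑ m ∈ range M, ∑ j ∈ Icc 1 (dl m), f (pos (m + 1) - j) := by
  induction M with
  | zero => simp [pos]
  | succ M ih =>
    rw [sum_range_succ, ← ih, pos_succ, sum_range_add]
    congr 1
    rw [← sum_range_reflect]
    refine sum_bij (fun i _ => i + 1) ?_ ?_ ?_ ?_
    · intro a ha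
      rw [mem_range] at ha
      rw [mem_Icc]
      omega
    · intro a _ b _ h
      omega
    · intro b hb
      rw [mem_Icc] at hb
      exact ⟨b - 1, mem_range.2 (by omega), by omega⟩
    · intro a ha
      rw [mem_range] at ha
      congr 1
      omega

end Pool.Agent.X194.Champ
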