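import Pool.Agent.X194.Champ.Moment

/-!
# Number of pairs of equal windows
-/

namespace Pool.Agent.X194.Champ

open Finset Filter Topology

lemma pairs_eq (S : Finset ℕ) (ℓ : ℕ) :
    ((S ×ˢ S).filter fun p => W ℓ p.1 = W ℓ p.2).card
      = ∑ w ∈ range (2 ^ ℓ), (S.filter fun l => W ℓ l = w).card ^ 2 := by
  rw [card_eq_sum_card_fiberwise (f := fun p => W ℓ p.1) (t := range (2 ^ ℓ))]
  · apply sum_congr rfl
    intro w _
    rw [sq, ← card_product]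
    congr 1
    ext p
    simp only [mem_filter, mem_product]
    constructor
    · rintro ⟨⟨⟨h1, h2⟩, h3⟩, h4⟩
      exact ⟨⟨h1, h4⟩, h2, h3 ▸ h4⟩
    · rintro ⟨⟨h1, h2⟩, h3, h4⟩
      exact ⟨⟨⟨h1, h3⟩, h2.trans h4.symm⟩, h2⟩
  · intro p _
    simp only [coe_range, Set.mem_Iio]
    exact W_lt _ _

lemma pow4_le {r : ℕ} (hr : 20 ≤ r) : 2 * r ^ 4 ≤ 2 ^ r := by
  induction r, hr using Nat.le_induction with
  | base => norm_num
  | succ r hr ih =>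
    rw [pow_succ 2 r]
    have h1 : (r + 1) ^ 4 ≤ 2 * r ^ 4 := by
      have h2 : 20 * r ^ 3 ≤ r ^ 4 := by
        calc 20 * r ^ 3 ≤ r * r ^ 3 := Nat.mul_le_mul_right _ hr
          _ = r ^ 4 := by ring
      have h3 : r ^ 2 ≤ r ^ 3 := Nat.pow_le_pow_right (by omega) (by norm_num)
      have h4 : r ≤ r ^ 3 := by
        calc r = r ^ 1 := (pow_one r).symm
          _ ≤ r ^ 3 := Nat.pow_le_pow_right (by omega) (by norm_num)
      have h5 : 1 ≤ r ^ 3 := Nat.one_le_pow _ _ (by omega)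
      have e : (r + 1) ^ 4 = r ^ 4 + 4 * r ^ 3 + 6 * r ^ 2 + 4 * r + 1 := by ring
      omega
    omega

lemma dl_le_self (m : ℕ) : dl m ≤ m := dl_le_iff.2 Nat.lt_two_pow_self

lemma pos_le (M : ℕ) : pos M ≤ M * dl M := by
  unfold pos
  have h : ∀ j ∈ range M, dl j ≤ dl M := by
    intro j hj
    rw [dl_le_iff]
    exact (mem_range.1 hj).trans (lt_pow_dl M)
  refine (sum_le_card_nsmul _ _ _ h).trans ?_
  simp

/-- **Second moment.**  Pairs of equal windows of length `ℓ ≤ log₂ N / 4` are asymptotically as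
rare as for uniformly distributed windows. -/
theorem second_moment {η : ℝ} (hη : 0 < η) : ∃ N0 : ℕ, ∀ N ≥ N0, ∀ ℓ : ℕ, 2 ^ (4 * ℓ) ≤ N →
    (2 : ℝ) ^ ℓ * (((Icc 1 N ×ˢ Icc 1 N).filter fun p => W ℓ p.1 = W ℓ p.2).card : ℝ)
      ≤ (1 + η) * (N : ℝ) ^ 2 := by
  obtain ⟨θ, hθ0, hθ1, hθη⟩ : ∃ θ : ℝ, 0 < θ ∧ θ ≤ 1 ∧ (1 + 2 * θ) * (1 + θ) ^ 2 ≤ 1 + η := by
    refine ⟨min η 1 / 16, by positivity, ?_, ?_⟩
    · have := min_le_right η 1
      linarith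
    · have h1 := min_le_right η 1
      have h2 := min_le_left η 1
      have h3 : 0 < min η 1 := by positivity
      set x := min η 1
      nlinarith [mul_nonneg h3.le (by linarith : 0 ≤ 1 - x), mul_nonneg (mul_nonneg h3.le h3.le)
        (by linarith : 0 ≤ 1 - x)]
  have hlim : Tendsto (fun Q : ℕ => (1 + θ) * (1 + 1 / 2 ^ Q) + (1 + 1 / θ) * (880 / 2 ^ Q))
      atTop (𝓝 ((1 + θ) * (1 + 0) + (1 + 1 / θ) * 0)) := by
    have h1 : Tendsto (fun Q : ℕ => (2 : ℝ) ^ Q) atTop atTop :=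
      tendsto_pow_atTop_atTop_of_one_lt (by norm_num)
    have h2 : Tendsto (fun Q : ℕ => (1 : ℝ) / 2 ^ Q) atTop (𝓝 0) := h1.const_div_atTop 1
    have h3 : Tendsto (fun Q : ℕ => (880 : ℝ) / 2 ^ Q) atTop (𝓝 0) := h1.const_div_atTop 880
    exact ((h2.const_add 1).const_mul _).add (h3.const_mul _)
  have hev := (hlim.eventually (gt_mem_nhds (show (1 + θ) * (1 + 0) + (1 + 1 / θ) * 0
    < 1 + 2 * θ by linarith))).and (eventually_ge_atTop 2)
  obtain ⟨Q, hQ, hQ2⟩ := hev.exists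
  obtain ⟨s1, hs1⟩ := exists_nat_gt (1 / θ)
  -- lower bound for the number of digits
  set s0 : ℕ := 32 * Q * 4 ^ Q + Q + s1 with hs0
  refine ⟨2 ^ s0 * 2 ^ s0, ?_⟩
  intro N hN ℓ hℓ
  have hex : ∃ M, N + 1 ≤ pos M := ⟨N + 1 + 1, pos_ge (N + 1)⟩
  classical
  obtain ⟨M, hM, hMin⟩ : ∃ M, N + 1 ≤ pos M ∧ ∀ M' < M, ¬ N + 1 ≤ pos M' :=
    ⟨Nat.find hex, Nat.find_spec hex, fun M' h => Nat.find_min hex h⟩
  have hMbig : 2 ^ s0 ≤ M := by
    by_contra hlt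
    push Not at hlt
    have h1 : pos M ≤ M * M := (pos_le M).trans (Nat.mul_le_mul_left _ (dl_le_self M))
    have h2 : M * M ≤ 2 ^ s0 * 2 ^ s0 := Nat.mul_le_mul hlt.le hlt.le
    omega
  have hdlM : s0 < dl M := lt_dl_iff.2 hMbig
  have hQ4 : 1 ≤ 4 ^ Q := Nat.one_le_pow _ _ (by norm_num)
  have h32 : 32 * Q ≤ 32 * Q * 4 ^ Q := Nat.le_mul_of_pos_right _ (by omega)
  obtain ⟨r, hr⟩ : ∃ r, dl M = r + Q := ⟨dl M - Q, by omega⟩
  have hr2 : 32 * Q * 4 ^ Q ≤ r := by omega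
  have hrbig : 20 ≤ r := by omega
  have hM1 : 2 ^ (r + Q - 1) ≤ M := lt_dl_iff.1 (by omega)
  have hM2 : M < 2 ^ (r + Q) := hr ▸ lt_pow_dl M
  have hpQ : 2 ^ Q ≤ r := by
    have : 2 ^ Q ≤ 4 ^ Q := Nat.pow_le_pow_left (by norm_num) _
    have h3 : 4 ^ Q ≤ 32 * Q * 4 ^ Q := Nat.le_mul_of_pos_left _ (by omega)
    omega
  have hQr : Q ≤ r := by omega
  have hpow4 := pow4_le hrbig
  -- N < 2^(r+Q) (r+Q)
  have hNlt : N < 2 ^ (r + Q) * (r + Q) := by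
    have h1 := pos_le M
    rw [hr] at h1
    have h2 : M * (r + Q) ≤ 2 ^ (r + Q) * (r + Q) := Nat.mul_le_mul_right _ hM2.le
    omega
  have hkey : r ^ 2 * N ≤ 2 ^ r * 2 ^ r := by
    have h1 : r ^ 2 * (2 ^ Q * (r + Q)) ≤ 2 ^ r := by
      have h2 : 2 ^ Q * (r + Q) ≤ r * (2 * r) := Nat.mul_le_mul hpQ (by omega)
      calc r ^ 2 * (2 ^ Q * (r + Q)) ≤ r ^ 2 * (r * (2 * r)) := Nat.mul_le_mul_left _ h2
        _ = 2 * r ^ 4 := by ring
        _ ≤ 2 ^ r := hpow4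
    calc r ^ 2 * N ≤ r ^ 2 * (2 ^ (r + Q) * (r + Q)) := Nat.mul_le_mul_left _ hNlt.le
      _ = 2 ^ r * (r ^ 2 * (2 ^ Q * (r + Q))) := by rw [pow_add]; ring
      _ ≤ 2 ^ r * 2 ^ r := Nat.mul_le_mul_left _ h1
  have hr1 : r * 2 ^ (2 * ℓ) ≤ 2 ^ r := by
    have h1 : (r * 2 ^ (2 * ℓ)) ^ 2 ≤ (2 ^ r) ^ 2 := by
      calc (r * 2 ^ (2 * ℓ)) ^ 2 = r ^ 2 * 2 ^ (4 * ℓ) := by rw [mul_pow, ← pow_mul]; congr 2; ring
        _ ≤ r ^ 2 * N := Nat.mul_le_mul_left _ hℓ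
        _ ≤ (2 ^ r) ^ 2 := by rw [sq (2 ^ r)]; exact hkey
    exact (Nat.pow_le_pow_iff_left (by norm_num)).1 h1
  have hlr : ℓ ≤ r := by
    have h1 : 2 ^ ℓ ≤ 2 ^ r := by
      calc 2 ^ ℓ ≤ 2 ^ (2 * ℓ) := Nat.pow_le_pow_right (by norm_num) (by omega)
        _ ≤ r * 2 ^ (2 * ℓ) := Nat.le_mul_of_pos_left _ (by omega)
        _ ≤ 2 ^ r := hr1
    exact (Nat.pow_le_pow_iff_right (by norm_num)).1 h1
  -- the block structure
  have hU1 : 2 ^ (Q - 1) ≤ M / 2 ^ r := by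
    rw [Nat.le_div_iff_mul_le (by positivity), ← pow_add]
    have : Q - 1 + r = r + Q - 1 := by omega
    rw [this]
    exact hM1
  have hU2 : M / 2 ^ r < 2 ^ Q := by
    rw [Nat.div_lt_iff_lt_mul (by positivity), ← pow_add, add_comm Q r]
    exact hM2
  have hUM : M / 2 ^ r * 2 ^ r ≤ M := Nat.div_mul_le_self _ _
  have hUM2 : M ≤ (M / 2 ^ r + 1) * 2 ^ r := by
    have := Nat.lt_div_mul_add (a := M) (b := 2 ^ r) (by positivity)
    rw [add_mul, one_mul]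
    exact this.le
  have hcore := core (θ := θ) hQ2 hU1 hU2 hUM hUM2 hlr hr1 hr2 hθ0
  -- comparison of `pos M` and `N`
  have hposN : (pos M : ℝ) ≤ (1 + θ) * N := by
    obtain ⟨M', hM'⟩ : ∃ M', M = M' + 2 := ⟨M - 2, by
      have : 2 ≤ M := by
        have h1 : 2 ^ 1 ≤ 2 ^ (r + Q - 1) := Nat.pow_le_pow_right (by norm_num) (by omega)
        omega
      omega⟩
    have h1 : pos (M' + 1) ≤ N := by
      have := hMin (M' + 1) (by omega)
      omega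
    have h2 : pos M = pos (M' + 1) + dl (M' + 1) := by rw [hM', ← pos_succ]
    have h3 : dl (M' + 1) ≤ r + Q := by
      rw [dl_le_iff]
      omega
    have h4 : M' ≤ N := (pos_ge M').trans h1
    have h5 : (r + Q) * (r + Q) ≤ N := by
      have h6 : 2 ^ (r + Q - 1) ≤ M' + 2 := by omega
      have h7 := pow4_le (r := r + Q - 1) (by omega)
      obtain ⟨x, hx⟩ : ∃ x, r + Q = x + 1 := ⟨r + Q - 1, by omega⟩
      rw [hx] at h6 h7 ⊢
      rw [Nat.add_sub_cancel] at h6 h7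
      have h8 : (x + 1) * (x + 1) + 2 ≤ 2 * x ^ 4 := by
        have h9 : 2 ≤ x := by omega
        have h10 : x ≤ x ^ 2 := by nlinarith
        have h11 : 4 * x ^ 2 ≤ x ^ 4 := by
          calc 4 * x ^ 2 ≤ x ^ 2 * x ^ 2 := Nat.mul_le_mul_right _ (by nlinarith)
            _ = x ^ 4 := by ring
        nlinarith
      omega
    have h6 : (1 : ℝ) / θ ≤ (r + Q : ℕ) := by
      have : s1 ≤ r + Q := by omega
      have h7 : (s1 : ℝ) ≤ (r + Q : ℕ) := by exact_mod_cast this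
      linarith
    have h7 : ((r + Q : ℕ) : ℝ) ≤ θ * N := by
      have h8 : ((r + Q : ℕ) : ℝ) * ((r + Q : ℕ) : ℝ) ≤ N := by exact_mod_cast h5
      have h9 : 1 ≤ θ * ((r + Q : ℕ) : ℝ) := by
        rw [div_le_iff₀ hθ0] at h6
        linarith
      have h10 : (0 : ℝ) ≤ ((r + Q : ℕ) : ℝ) := Nat.cast_nonneg _
      nlinarith
    have h8 : (pos M : ℝ) ≤ N + ((r + Q : ℕ) : ℝ) := by
      have : pos M ≤ N + (r + Q) := by omega
      exact_mod_cast this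
    linarith
  -- the pairs
  have hsub : ((Icc 1 N ×ˢ Icc 1 N).filter fun p => W ℓ p.1 = W ℓ p.2).card
      ≤ ((range (pos M) ×ˢ range (pos M)).filter fun p => W ℓ p.1 = W ℓ p.2).card := by
    apply card_le_card
    apply filter_subset_filter
    apply product_subset_product
    all_goals
      intro x hx
      rw [mem_Icc] at hx
      rw [mem_range]
      omega
  rw [pairs_eq (range (pos M))] at hsub
  have hsub' : ((((Icc 1 N ×ˢ Icc 1 N).filter fun p => W ℓ p.1 = W ℓ p.2).card : ℕ) : ℝ)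
      ≤ ∑ w ∈ range (2 ^ ℓ), (((range (pos M)).filter fun l => W ℓ l = w).card : ℝ) ^ 2 := by
    exact_mod_cast hsub
  have hN0 : (0 : ℝ) ≤ N := Nat.cast_nonneg _
  calc (2 : ℝ) ^ ℓ * (((Icc 1 N ×ˢ Icc 1 N).filter fun p => W ℓ p.1 = W ℓ p.2).card : ℝ)
      ≤ 2 ^ ℓ * ∑ w ∈ range (2 ^ ℓ), (((range (pos M)).filter fun l => W ℓ l = w).card : ℝ) ^ 2 :=
        mul_le_mul_of_nonneg_left hsub' (by positivity)
    _ ≤ _ := hcore
    _ ≤ (1 + 2 * θ) * ((1 + θ) * N) ^ 2 := by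
      apply mul_le_mul hQ.le (pow_le_pow_left₀ (Nat.cast_nonneg _) hposN 2) (by positivity)
        (by positivity)
    _ = (1 + 2 * θ) * (1 + θ) ^ 2 * (N : ℝ) ^ 2 := by ring
    _ ≤ (1 + η) * (N : ℝ) ^ 2 := mul_le_mul_of_nonneg_right hθη (by positivity)

end Pool.Agent.X194.Champ
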