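import Pool.Agent.X194.Champ.Second

/-!
# Second moment of the window counts: the estimate
-/

namespace Pool.Agent.X194.Champ

open Finset

lemma phi_le {r ℓ u j w Q : ℕ} (hQ : dl u ≤ Q) : phi r ℓ u j w ≤ 2 ^ Q := by
  have h1 : (1 : ℝ) ≤ 2 ^ Q := one_le_pow₀ (by norm_num)
  have h2 : (2 : ℝ) ^ dl u ≤ 2 ^ Q := pow_le_pow_right₀ (by norm_num) hQ
  unfold phi
  split_ifs <;> linarith

lemma phi_le_one {r ℓ u j w : ℕ} (h : ℓ ≤ j) : phi r ℓ u j w ≤ 1 := by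
  unfold phi
  rw [if_pos h]
  split_ifs <;> norm_num

lemma phi_sum_le (r ℓ u j : ℕ) : ∑ w ∈ range (2 ^ ℓ), phi r ℓ u j w ≤ 2 ^ ℓ := by
  by_cases h : ℓ ≤ j
  · refine (sum_le_card_nsmul _ _ 1 (fun w _ => phi_le_one h)).trans ?_
    rw [card_range, nsmul_eq_mul, mul_one]
    push_cast
    exact le_rfl
  · by_cases h2 : j + dl u ≤ ℓ
    · have h3 : ∀ w ∈ range (2 ^ ℓ), phi r ℓ u j w
          = if w / 2 ^ (ℓ - j - dl u) % 2 ^ dl u = u then 2 ^ dl u else 0 := by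
        intro w _
        unfold phi
        rw [if_neg h]
        by_cases h4 : w / 2 ^ (ℓ - j - dl u) % 2 ^ dl u = u
        · rw [if_pos ⟨h2, h4⟩, if_pos h4]
        · rw [if_neg (fun h5 => h4 h5.2), if_neg h4]
      rw [sum_congr rfl h3, ← sum_filter, sum_const, nsmul_eq_mul]
      have h5 := card_pat1 (ℓ := ℓ) (p := ℓ - j - dl u) (c := dl u) (u := u) (by omega)
      have h6 : (((range (2 ^ ℓ)).filter
          fun w => w / 2 ^ (ℓ - j - dl u) % 2 ^ dl u = u).card : ℝ) ≤ 2 ^ (ℓ - dl u) := by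
        exact_mod_cast h5
      refine (mul_le_mul_of_nonneg_right h6 (by positivity)).trans (le_of_eq ?_)
      rw [← pow_add]
      congr 1
      omega
    · have h3 : ∀ w ∈ range (2 ^ ℓ), phi r ℓ u j w = 0 := by
        intro w _
        unfold phi
        rw [if_neg h, if_neg (fun h5 => h2 h5.1)]
      rw [sum_eq_zero h3]
      positivity

lemma far {r ℓ u j u' j' Q : ℕ} (hQ : dl u ≤ Q) (hj : j' < ℓ) (h : j + Q ≤ j') :
    ∑ w ∈ range (2 ^ ℓ), phi r ℓ u j w * phi r ℓ u' j' w ≤ 2 ^ ℓ := by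
  have e1 : ¬ ℓ ≤ j := by omega
  have e2 : ¬ ℓ ≤ j' := by omega
  by_cases h2 : j' + dl u' ≤ ℓ
  · have h3 : ∀ w ∈ range (2 ^ ℓ), phi r ℓ u j w * phi r ℓ u' j' w
        = if w / 2 ^ (ℓ - j' - dl u') % 2 ^ dl u' = u' ∧ w / 2 ^ (ℓ - j - dl u) % 2 ^ dl u = u
          then 2 ^ dl u * 2 ^ dl u' else 0 := by
      intro w _
      unfold phi
      rw [if_neg e1, if_neg e2]
      have h5 : j + dl u ≤ ℓ := by omega
      by_cases h4 : w / 2 ^ (ℓ - j - dl u) % 2 ^ dl u = u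
      · rw [if_pos ⟨h5, h4⟩]
        by_cases h6 : w / 2 ^ (ℓ - j' - dl u') % 2 ^ dl u' = u'
        · rw [if_pos ⟨h2, h6⟩, if_pos ⟨h6, h4⟩]
        · rw [if_neg (fun h7 => h6 h7.2), if_neg (fun h7 => h6 h7.1), mul_zero]
      · rw [if_neg (fun h7 => h4 h7.2), zero_mul, if_neg (fun h7 => h4 h7.2)]
    rw [sum_congr rfl h3, ← sum_filter, sum_const, nsmul_eq_mul]
    have h5 := card_pat2 (ℓ := ℓ) (p := ℓ - j' - dl u') (c := dl u') (u := u')
      (p' := ℓ - j - dl u) (c' := dl u) (u' := u) (by omega) (by omega)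
    have h6 : (((range (2 ^ ℓ)).filter fun w => w / 2 ^ (ℓ - j' - dl u') % 2 ^ dl u' = u' ∧
        w / 2 ^ (ℓ - j - dl u) % 2 ^ dl u = u).card : ℝ) ≤ 2 ^ (ℓ - dl u' - dl u) := by
      exact_mod_cast h5
    refine (mul_le_mul_of_nonneg_right h6 (by positivity)).trans (le_of_eq ?_)
    rw [← pow_add, ← pow_add]
    congr 1
    omega
  · have h3 : ∀ w ∈ range (2 ^ ℓ), phi r ℓ u j w * phi r ℓ u' j' w = 0 := by
      intro w _
      have : phi r ℓ u' j' w = 0 := by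
        unfold phi
        rw [if_neg e2, if_neg (fun h5 => h2 h5.1)]
      rw [this, mul_zero]
    rw [sum_eq_zero h3]
    positivity

lemma corr {r ℓ u j u' j' Q : ℕ} (hQ : dl u ≤ Q) (hQ' : dl u' ≤ Q) :
    ∑ w ∈ range (2 ^ ℓ), phi r ℓ u j w * phi r ℓ u' j' w
      ≤ 2 ^ ℓ * (1 + 2 ^ Q * if j < ℓ ∧ j' < j + Q ∧ j < j' + Q then (1 : ℝ) else 0) := by
  have hp : (2 : ℝ) ^ ℓ ≤ 2 ^ ℓ * (1 + 2 ^ Q * if j < ℓ ∧ j' < j + Q ∧ j < j' + Q then (1 : ℝ)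
      else 0) := by
    have : (0 : ℝ) ≤ 2 ^ Q * if j < ℓ ∧ j' < j + Q ∧ j < j' + Q then (1 : ℝ) else 0 := by
      split_ifs <;> positivity
    nlinarith [(by positivity : (0 : ℝ) < 2 ^ ℓ)]
  rcases le_or_gt ℓ j with hj | hj
  · refine le_trans ?_ ((phi_sum_le r ℓ u' j').trans hp)
    apply sum_le_sum
    intro w _
    have := phi_nonneg r ℓ u' j' w
    have h1 := phi_le_one (r := r) (u := u) (w := w) hj
    nlinarith
  rcases le_or_gt ℓ j' with hj' | hj'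
  · refine le_trans ?_ ((phi_sum_le r ℓ u j).trans hp)
    apply sum_le_sum
    intro w _
    have := phi_nonneg r ℓ u j w
    have h1 := phi_le_one (r := r) (u := u') (w := w) hj'
    nlinarith
  by_cases hc : j' < j + Q ∧ j < j' + Q
  · rw [if_pos ⟨hj, hc⟩]
    have h1 : ∑ w ∈ range (2 ^ ℓ), phi r ℓ u j w * phi r ℓ u' j' w
        ≤ ∑ w ∈ range (2 ^ ℓ), 2 ^ Q * phi r ℓ u' j' w := by
      apply sum_le_sum
      intro w _
      exact mul_le_mul_of_nonneg_right (phi_le hQ) (phi_nonneg _ _ _ _ _)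
    rw [← mul_sum] at h1
    have h2 := phi_sum_le r ℓ u' j'
    have h3 : (0 : ℝ) < 2 ^ Q := by positivity
    have h4 : (0 : ℝ) < 2 ^ ℓ := by positivity
    nlinarith
  · refine le_trans ?_ hp
    rcases Nat.lt_or_ge j' (j + Q) with h1 | h1
    · have h2 : j' + Q ≤ j := by
        by_contra h3
        exact hc ⟨h1, by omega⟩
      have h3 := far (r := r) (u := u') (u' := u) hQ' hj h2
      refine le_trans (le_of_eq ?_) h3
      apply sum_congr rfl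
      intro w _
      ring
    · exact far hQ hj' h1

lemma close_count {r ℓ U Q : ℕ} (hU : U < 2 ^ Q) :
    ∑ τ ∈ TT r U, ∑ τ' ∈ TT r U,
      (if τ.2 < ℓ ∧ τ'.2 < τ.2 + Q ∧ τ.2 < τ'.2 + Q then (1 : ℝ) else 0)
      ≤ 2 ^ Q * ℓ * (2 ^ Q * (2 * Q)) := by
  have hU' : (U : ℝ) ≤ 2 ^ Q := by exact_mod_cast hU.le
  have hU0 : (0 : ℝ) ≤ U := Nat.cast_nonneg _
  have h1 : ∀ τ ∈ TT r U, ∑ τ' ∈ TT r U,
      (if τ.2 < ℓ ∧ τ'.2 < τ.2 + Q ∧ τ.2 < τ'.2 + Q then (1 : ℝ) else 0)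
      ≤ if τ.2 < ℓ then (2 : ℝ) ^ Q * (2 * Q) else 0 := by
    intro τ _
    by_cases hτ : τ.2 < ℓ
    · rw [if_pos hτ, TT, sum_sigma]
      have h2 : ∀ u ∈ Ico 1 U, ∑ j ∈ Icc 1 (dl u + r),
          (if τ.2 < ℓ ∧ j < τ.2 + Q ∧ τ.2 < j + Q then (1 : ℝ) else 0) ≤ 2 * Q := by
        intro u _
        rw [← sum_filter, sum_const, nsmul_eq_mul, mul_one]
        have h3 : ((Icc 1 (dl u + r)).filter
            fun j => τ.2 < ℓ ∧ j < τ.2 + Q ∧ τ.2 < j + Q).card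
            ≤ (Ico (τ.2 + 1 - Q) (τ.2 + Q)).card := by
          apply card_le_card
          intro j hj
          rw [mem_filter] at hj
          rw [mem_Ico]
          omega
        rw [Nat.card_Ico] at h3
        have h4 : ((Icc 1 (dl u + r)).filter
            fun j => τ.2 < ℓ ∧ j < τ.2 + Q ∧ τ.2 < j + Q).card ≤ 2 * Q := by omega
        exact_mod_cast h4
      refine (sum_le_card_nsmul _ _ _ h2).trans ?_
      rw [Nat.card_Ico, nsmul_eq_mul]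
      apply mul_le_mul_of_nonneg_right _ (by positivity)
      have : ((U - 1 : ℕ) : ℝ) ≤ U := by exact_mod_cast Nat.sub_le _ _
      linarith
    · rw [if_neg hτ]
      apply le_of_eq
      apply sum_eq_zero
      intro τ' _
      rw [if_neg (fun h => hτ h.1)]
  refine (sum_le_sum h1).trans ?_
  rw [TT, sum_sigma]
  have h2 : ∀ u ∈ Ico 1 U, ∑ j ∈ Icc 1 (dl u + r),
      (if j < ℓ then (2 : ℝ) ^ Q * (2 * Q) else 0) ≤ ℓ * (2 ^ Q * (2 * Q)) := by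
    intro u _
    rw [← sum_filter, sum_const, nsmul_eq_mul]
    apply mul_le_mul_of_nonneg_right _ (by positivity)
    have h3 : ((Icc 1 (dl u + r)).filter fun j => j < ℓ).card ≤ (range ℓ).card := by
      apply card_le_card
      intro j hj
      rw [mem_filter] at hj
      rw [mem_range]
      exact hj.2
    rw [card_range] at h3
    exact_mod_cast h3
  refine (sum_le_card_nsmul _ _ _ h2).trans ?_
  rw [Nat.card_Ico, nsmul_eq_mul]
  have : ((U - 1 : ℕ) : ℝ) ≤ U := by exact_mod_cast Nat.sub_le _ _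
  rw [mul_assoc]
  apply mul_le_mul_of_nonneg_right _ (by positivity)
  linarith

lemma TT_card {r U M : ℕ} (hM : U * 2 ^ r ≤ M) : (TT r U).card * 2 ^ r ≤ pos M := by
  refine le_trans ?_ (pos_mono hM)
  rw [pos, sum_blocks, TT, card_sigma, sum_mul]
  have h1 : ∀ u ∈ Ico 1 U, (Icc 1 (dl u + r)).card * 2 ^ r
      = ∑ v ∈ range (2 ^ r), dl (u * 2 ^ r + v) := by
    intro u hu
    rw [mem_Ico] at hu
    have h2 : ∀ v ∈ range (2 ^ r), dl (u * 2 ^ r + v) = dl u + r := by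
      intro v hv
      exact dl_block hu.1 (mem_range.1 hv)
    rw [sum_congr rfl h2, sum_const, card_range, Nat.card_Icc, smul_eq_mul]
    rw [Nat.add_sub_cancel, mul_comm]
  rw [sum_congr rfl h1]
  apply sum_le_sum_of_subset
  intro u hu
  rw [mem_Ico] at hu
  exact mem_range.2 hu.2

lemma TT_card_ge {r U : ℕ} : (U - 1) * r ≤ (TT r U).card := by
  rw [TT, card_sigma]
  have h1 : ∀ u ∈ Ico 1 U, r ≤ (Icc 1 (dl u + r)).card := by
    intro u _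
    rw [Nat.card_Icc]
    omega
  have h2 := card_nsmul_le_sum (Ico 1 U) (fun u => (Icc 1 (dl u + r)).card) r h1
  rwa [Nat.card_Ico, smul_eq_mul] at h2

lemma alg1 {L R K r Q l : ℝ} (hL : 1 ≤ L) (hLR : L ≤ R) (hrL : r * (L * L) ≤ R) (hQr : Q ≤ r)
    (hQ0 : 0 ≤ Q) (hr : 0 ≤ r) (hK : 1 ≤ K) (hKQ : K * (2 * Q) ≤ r) (hl : l ≤ r) (_hl0 : 0 ≤ l) :
    r * (r * L + 2 * R + r * (L * L)) + (Q + r) * (K * R + L) + K * (l * L + 2 * Q * (K * R + L))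
      ≤ 11 * K * (r * R) := by
  have hR : 0 ≤ R := by linarith
  have hrR : 0 ≤ r * R := mul_nonneg hr hR
  have t0 : r * L ≤ R := by nlinarith [mul_nonneg hr (by linarith : (0 : ℝ) ≤ L)]
  have t1 : r * (r * L) ≤ r * R := mul_le_mul_of_nonneg_left t0 hr
  have t2 : r * (r * (L * L)) ≤ r * R := mul_le_mul_of_nonneg_left hrL hr
  have t3 : K * R + L ≤ 2 * (K * R) := by nlinarith
  have t4 : (Q + r) * (K * R + L) ≤ (2 * r) * (2 * (K * R)) :=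
    mul_le_mul (by linarith) t3 (by nlinarith) (by linarith)
  have t5 : l * L ≤ r * R := mul_le_mul hl hLR (by linarith) hr
  have t6 : K * (l * L) ≤ K * (r * R) := mul_le_mul_of_nonneg_left t5 (by linarith)
  have t7 : K * (2 * Q) * (K * R + L) ≤ r * (2 * (K * R)) :=
    mul_le_mul hKQ t3 (by nlinarith) hr
  have t8 : r * R ≤ K * (r * R) := by nlinarith
  nlinarith

/-- the second moment estimate -/
theorem core {Q r U ℓ M : ℕ} (hQ2 : 2 ≤ Q) (hU1 : 2 ^ (Q - 1) ≤ U) (hU2 : U < 2 ^ Q)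
    (hM1 : U * 2 ^ r ≤ M) (hM2 : M ≤ (U + 1) * 2 ^ r) (hr : ℓ ≤ r) (hr1 : r * 2 ^ (2 * ℓ) ≤ 2 ^ r)
    (hr2 : 32 * Q * 4 ^ Q ≤ r) {θ : ℝ} (hθ : 0 < θ) :
    (2 : ℝ) ^ ℓ * ∑ w ∈ range (2 ^ ℓ), (((range (pos M)).filter fun l => W ℓ l = w).card : ℝ) ^ 2
      ≤ ((1 + θ) * (1 + 1 / 2 ^ Q) + (1 + 1 / θ) * (880 / 2 ^ Q)) * (pos M : ℝ) ^ 2 := by
  set N : ℝ := (pos M : ℝ) with hN
  set R : ℝ := 2 ^ r with hR
  set K : ℝ := 2 ^ Q with hK
  set L : ℝ := 2 ^ ℓ with hL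
  have hU0 : 1 ≤ U := le_trans Nat.one_le_two_pow hU1
  have hRpos : 0 < R := by positivity
  have hKpos : 0 < K := by positivity
  have hLpos : 0 < L := by positivity
  have hK1 : 1 ≤ K := one_le_pow₀ (by norm_num)
  have hL1 : 1 ≤ L := one_le_pow₀ (by norm_num)
  have hLR : L ≤ R := pow_le_pow_right₀ (by norm_num) hr
  have hrR : (r : ℝ) * (L * L) ≤ R := by
    have : (r : ℝ) * 2 ^ (2 * ℓ) ≤ 2 ^ r := by exact_mod_cast hr1
    rw [two_mul, pow_add] at this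
    exact this
  have hr2' : 32 * (Q : ℝ) * (K * K) ≤ r := by
    have : 32 * (Q : ℝ) * 4 ^ Q ≤ r := by exact_mod_cast hr2
    rw [show (4 : ℝ) = 2 * 2 by norm_num, mul_pow] at this
    exact this
  have hQ2' : (2 : ℝ) ≤ Q := by exact_mod_cast hQ2
  have hKK : K ≤ K * K := by nlinarith
  have hQr : (Q : ℝ) ≤ r := by nlinarith
  have hKQ : K * (2 * Q) ≤ r := by nlinarith
  have hr0 : (0 : ℝ) ≤ r := Nat.cast_nonneg _
  have hrpos : (0 : ℝ) < r := by linarith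
  have hlr : (ℓ : ℝ) ≤ r := by exact_mod_cast hr
  have hl0 : (0 : ℝ) ≤ ℓ := Nat.cast_nonneg _
  -- the scale
  have hscale : K * (r * R) ≤ 4 * N := by
    have h1 : (U - 1) * r * 2 ^ r ≤ pos M :=
      (Nat.mul_le_mul_right _ TT_card_ge).trans (TT_card hM1)
    have h2 : 2 ^ Q ≤ 4 * (U - 1) := by
      have e : Q = (Q - 2) + 2 := by omega
      have e' : Q - 1 = (Q - 2) + 1 := by omega
      rw [e', pow_succ] at hU1
      rw [e, pow_add]
      have : 1 ≤ 2 ^ (Q - 2) := Nat.one_le_two_pow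
      omega
    have h3 : 2 ^ Q * (r * 2 ^ r) ≤ 4 * pos M := by
      calc 2 ^ Q * (r * 2 ^ r) ≤ 4 * (U - 1) * (r * 2 ^ r) := Nat.mul_le_mul_right _ h2
        _ = 4 * ((U - 1) * r * 2 ^ r) := by ring
        _ ≤ 4 * pos M := Nat.mul_le_mul_left _ h1
    have h4 : (2 : ℝ) ^ Q * (r * 2 ^ r) ≤ 4 * (pos M : ℝ) := by exact_mod_cast h3
    exact h4
  have hN0 : 0 ≤ N := Nat.cast_nonneg _
  -- main part
  set H : ℕ → ℝ := fun w => 2 ^ (r - ℓ) * ∑ τ ∈ TT r U, phi r ℓ τ.1 τ.2 w with hH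
  have hdl : ∀ τ ∈ TT r U, dl τ.1 ≤ Q := by
    intro τ hτ
    rw [TT, mem_sigma, mem_Ico] at hτ
    exact dl_le_iff.2 (by omega)
  have hTT : (((TT r U).card : ℝ)) * R ≤ N := by
    have h4 : (((TT r U).card : ℝ)) * 2 ^ r ≤ (pos M : ℝ) := by exact_mod_cast TT_card hM1
    exact h4
  have hmain : L * ∑ w ∈ range (2 ^ ℓ), (H w) ^ 2 ≤ (1 + 1 / K) * N ^ 2 := by
    have h1 : ∑ w ∈ range (2 ^ ℓ), (H w) ^ 2 = 2 ^ (r - ℓ) * 2 ^ (r - ℓ) *
        ∑ τ ∈ TT r U, ∑ τ' ∈ TT r U, ∑ w ∈ range (2 ^ ℓ), phi r ℓ τ.1 τ.2 w * phi r ℓ τ'.1 τ'.2 w := by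
      have h2 : ∀ w ∈ range (2 ^ ℓ), (H w) ^ 2 = 2 ^ (r - ℓ) * 2 ^ (r - ℓ) *
          ∑ τ ∈ TT r U, ∑ τ' ∈ TT r U, phi r ℓ τ.1 τ.2 w * phi r ℓ τ'.1 τ'.2 w := by
        intro w _
        rw [hH, ← sum_mul_sum]
        ring
      rw [sum_congr rfl h2, ← mul_sum, sum_comm]
      congr 1
      apply sum_congr rfl
      intro τ _
      rw [sum_comm]
    have h3 : ∑ τ ∈ TT r U, ∑ τ' ∈ TT r U, ∑ w ∈ range (2 ^ ℓ),
        phi r ℓ τ.1 τ.2 w * phi r ℓ τ'.1 τ'.2 w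
        ≤ L * (((TT r U).card : ℝ) ^ 2 + K * (K * ℓ * (K * (2 * Q)))) := by
      have h4 : ∑ τ ∈ TT r U, ∑ τ' ∈ TT r U, ∑ w ∈ range (2 ^ ℓ),
          phi r ℓ τ.1 τ.2 w * phi r ℓ τ'.1 τ'.2 w
          ≤ ∑ τ ∈ TT r U, ∑ τ' ∈ TT r U, L * (1 + K *
            if τ.2 < ℓ ∧ τ'.2 < τ.2 + Q ∧ τ.2 < τ'.2 + Q then (1 : ℝ) else 0) := by
        apply sum_le_sum
        intro τ hτ
        apply sum_le_sum
        intro τ' hτ'
        exact corr (hdl τ hτ) (hdl τ' hτ')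
      refine h4.trans ?_
      have h5 : ∑ τ ∈ TT r U, ∑ τ' ∈ TT r U, L * (1 + K *
            if τ.2 < ℓ ∧ τ'.2 < τ.2 + Q ∧ τ.2 < τ'.2 + Q then (1 : ℝ) else 0)
          = L * (((TT r U).card : ℝ) ^ 2 + K * ∑ τ ∈ TT r U, ∑ τ' ∈ TT r U,
            if τ.2 < ℓ ∧ τ'.2 < τ.2 + Q ∧ τ.2 < τ'.2 + Q then (1 : ℝ) else 0) := by
        simp_rw [← mul_sum, sum_add_distrib, ← mul_sum, sum_const, nsmul_eq_mul, mul_one]
        rw [sq]
      rw [h5]
      apply mul_le_mul_of_nonneg_left _ hLpos.le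
      have := mul_le_mul_of_nonneg_left (close_count (r := r) (ℓ := ℓ) hU2) hKpos.le
      linarith
    have h6 : L * 2 ^ (r - ℓ) = R := by
      rw [hL, hR, ← pow_add]
      congr 1
      omega
    have h7 : L * ∑ w ∈ range (2 ^ ℓ), (H w) ^ 2
        ≤ R * R * (((TT r U).card : ℝ) ^ 2 + K * (K * ℓ * (K * (2 * Q)))) := by
      rw [h1]
      have h8 := mul_le_mul_of_nonneg_left h3
        (by positivity : (0 : ℝ) ≤ L * (2 ^ (r - ℓ) * 2 ^ (r - ℓ)))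
      have h9 : L * (2 ^ (r - ℓ) * 2 ^ (r - ℓ)) * (L * (((TT r U).card : ℝ) ^ 2
          + K * (K * ℓ * (K * (2 * Q))))) = (L * 2 ^ (r - ℓ)) * (L * 2 ^ (r - ℓ)) *
          (((TT r U).card : ℝ) ^ 2 + K * (K * ℓ * (K * (2 * Q)))) := by ring
      rw [h9, h6] at h8
      calc _ = L * (2 ^ (r - ℓ) * 2 ^ (r - ℓ)) * ∑ τ ∈ TT r U, ∑ τ' ∈ TT r U,
          ∑ w ∈ range (2 ^ ℓ), phi r ℓ τ.1 τ.2 w * phi r ℓ τ'.1 τ'.2 w := by ring
        _ ≤ _ := h8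
    refine h7.trans ?_
    have h10 : R * R * ((TT r U).card : ℝ) ^ 2 ≤ N ^ 2 := by
      have h11 : (0 : ℝ) ≤ ((TT r U).card : ℝ) * R := by positivity
      nlinarith
    have h12 : R * R * (K * (K * ℓ * (K * (2 * Q)))) ≤ 1 / K * N ^ 2 := by
      -- K^4 ℓ 2Q R^2 ≤ N^2
      rw [one_div, inv_mul_eq_div, le_div_iff₀ hKpos]
      have h13 : (K * (r * R)) ^ 2 ≤ (4 * N) ^ 2 := pow_le_pow_left₀ (by positivity) hscale 2
      have h14 : 32 * (Q : ℝ) * (K * K) * ℓ ≤ r * r :=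
        mul_le_mul hr2' hlr hl0 hr0
      have h15 : 32 * (Q : ℝ) * (K * K) * ℓ * ((K * R) ^ 2) ≤ r * r * (K * R) ^ 2 :=
        mul_le_mul_of_nonneg_right h14 (by positivity)
      nlinarith
    calc R * R * (((TT r U).card : ℝ) ^ 2 + K * (K * ℓ * (K * (2 * Q))))
        = R * R * ((TT r U).card : ℝ) ^ 2 + R * R * (K * (K * ℓ * (K * (2 * Q)))) := by ring
      _ ≤ N ^ 2 + 1 / K * N ^ 2 := add_le_add h10 h12
      _ = _ := by ring
  -- error part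
  have herr : L * ∑ w ∈ range (2 ^ ℓ), (bb r ℓ U w : ℝ) ^ 2 ≤ 880 / K * N ^ 2 := by
    have h1 : ∀ w, L * (bb r ℓ U w : ℝ) ≤ 11 * K * (r * R) := by
      intro w
      have h2 := bb_le (w := w) hU0 hr hU2
      have h3 : (bb r ℓ U w : ℝ) ≤ r * (r + 2 ^ (r + 1 - ℓ) + r * L)
          + (Q + r) * (2 ^ (r + Q - ℓ) + 1) + K * (ℓ + 2 * Q * (2 ^ (r + Q - ℓ) + 1)) := by
        have h3' : (bb r ℓ U w : ℝ) ≤ r * (r + 2 ^ (r + 1 - ℓ) + r * 2 ^ ℓ)
          + (Q + r) * (2 ^ (r + Q - ℓ) + 1) + 2 ^ Q * (ℓ + 2 * Q * (2 ^ (r + Q - ℓ) + 1)) := by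
          exact_mod_cast h2
        exact h3'
      have h4 : L * 2 ^ (r + 1 - ℓ) = 2 * R := by
        rw [hL, hR, ← pow_add, ← pow_succ']
        congr 1
        omega
      have h5 : L * 2 ^ (r + Q - ℓ) = K * R := by
        rw [hL, hR, hK, ← pow_add, ← pow_add]
        congr 1
        omega
      have h6 := mul_le_mul_of_nonneg_left h3 hLpos.le
      refine h6.trans (le_trans (le_of_eq ?_) (alg1 hL1 hLR hrR hQr (by positivity) hr0 hK1 hKQ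
        hlr hl0))
      calc L * (r * (r + 2 ^ (r + 1 - ℓ) + r * L)
          + (Q + r) * (2 ^ (r + Q - ℓ) + 1) + K * (ℓ + 2 * Q * (2 ^ (r + Q - ℓ) + 1)))
          = r * (r * L + L * 2 ^ (r + 1 - ℓ) + r * (L * L)) + (Q + r) * (L * 2 ^ (r + Q - ℓ) + L)
            + K * (ℓ * L + 2 * Q * (L * 2 ^ (r + Q - ℓ) + L)) := by ring
        _ = _ := by rw [h4, h5]
    have h2 : ∑ w ∈ range (2 ^ ℓ), (bb r ℓ U w : ℝ) ≤ 5 * (r * R) := by
      have h3 : ∑ w ∈ range (2 ^ ℓ), (bb r ℓ U w : ℝ) ≤ r * R + (Q + r) * R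
          + K * (ℓ + 2 * Q * R) := by
        have h3' : ∑ w ∈ range (2 ^ ℓ), (bb r ℓ U w : ℝ) ≤ r * 2 ^ r + (Q + r) * 2 ^ r
          + 2 ^ Q * (ℓ + 2 * Q * 2 ^ r) := by
          exact_mod_cast bb_total (ℓ := ℓ) hr hU2
        exact h3'
      refine h3.trans ?_
      have h4 : K * ℓ ≤ r * R := by
        have h5 : K ≤ R := pow_le_pow_right₀ (by norm_num) (by exact_mod_cast hQr)
        calc K * ℓ ≤ R * r := mul_le_mul h5 hlr hl0 hRpos.le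
          _ = r * R := by ring
      have h6 : K * (2 * Q) * R ≤ r * R := mul_le_mul_of_nonneg_right hKQ hRpos.le
      have h7 : (Q : ℝ) * R ≤ r * R := mul_le_mul_of_nonneg_right hQr hRpos.le
      nlinarith
    have h3 : L * ∑ w ∈ range (2 ^ ℓ), (bb r ℓ U w : ℝ) ^ 2
        ≤ 11 * K * (r * R) * ∑ w ∈ range (2 ^ ℓ), (bb r ℓ U w : ℝ) := by
      rw [mul_sum, mul_sum]
      apply sum_le_sum
      intro w _
      rw [sq, ← mul_assoc]
      exact mul_le_mul_of_nonneg_right (h1 w) (Nat.cast_nonneg _)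
    have h4 : 11 * K * (r * R) * ∑ w ∈ range (2 ^ ℓ), (bb r ℓ U w : ℝ)
        ≤ 11 * K * (r * R) * (5 * (r * R)) :=
      mul_le_mul_of_nonneg_left h2 (by positivity)
    refine h3.trans (h4.trans ?_)
    rw [div_mul_eq_mul_div, le_div_iff₀ hKpos]
    have h13 : (K * (r * R)) ^ 2 ≤ (4 * N) ^ 2 := pow_le_pow_left₀ (by positivity) hscale 2
    nlinarith
  -- conclusion
  have hfin : ∀ w ∈ range (2 ^ ℓ), (((range (pos M)).filter fun l => W ℓ l = w).card : ℝ) ^ 2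
      ≤ (1 + θ) * (H w) ^ 2 + (1 + 1 / θ) * (bb r ℓ U w : ℝ) ^ 2 := by
    intro w _
    have h1 := n_le (w := w) hU0 hr hM2
    have h2 : (0 : ℝ) ≤ (((range (pos M)).filter fun l => W ℓ l = w).card : ℝ) :=
      Nat.cast_nonneg _
    have h3 : (((range (pos M)).filter fun l => W ℓ l = w).card : ℝ) ^ 2
        ≤ (H w + bb r ℓ U w) ^ 2 := pow_le_pow_left₀ h2 h1 2
    refine h3.trans ?_
    have h4 : (0 : ℝ) ≤ (θ * H w - bb r ℓ U w) ^ 2 / θ := by positivity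
    have h5 : (θ * H w - bb r ℓ U w) ^ 2 / θ
        = θ * (H w) ^ 2 - 2 * (H w * bb r ℓ U w) + 1 / θ * (bb r ℓ U w : ℝ) ^ 2 := by
      field_simp
      ring
    rw [h5] at h4
    nlinarith
  calc L * ∑ w ∈ range (2 ^ ℓ), (((range (pos M)).filter fun l => W ℓ l = w).card : ℝ) ^ 2
      ≤ L * ∑ w ∈ range (2 ^ ℓ), ((1 + θ) * (H w) ^ 2 + (1 + 1 / θ) * (bb r ℓ U w : ℝ) ^ 2) :=
        mul_le_mul_of_nonneg_left (sum_le_sum hfin) hLpos.le
    _ = (1 + θ) * (L * ∑ w ∈ range (2 ^ ℓ), (H w) ^ 2)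
        + (1 + 1 / θ) * (L * ∑ w ∈ range (2 ^ ℓ), (bb r ℓ U w : ℝ) ^ 2) := by
      rw [sum_add_distrib, ← mul_sum, ← mul_sum]
      ring
    _ ≤ (1 + θ) * ((1 + 1 / K) * N ^ 2) + (1 + 1 / θ) * (880 / K * N ^ 2) :=
      add_le_add (mul_le_mul_of_nonneg_left hmain (by positivity))
        (mul_le_mul_of_nonneg_left herr (by positivity))
    _ = _ := by ring

end Pool.Agent.X194.Champ
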