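import Pool.Agent.X194.Champ.Cnt

/-!
# Second moment of the window counts
-/

namespace Pool.Agent.X194.Champ

open Finset

/-- windows with value `w` which start in the expansion of `m` -/
def F (ℓ w m : ℕ) : ℕ := ∑ j ∈ Icc 1 (dl m), if X ℓ j m = w then 1 else 0

lemma n_eq (ℓ w M : ℕ) :
    ((range (pos M)).filter fun l => W ℓ l = w).card = ∑ m ∈ range M, F ℓ w m := by
  rw [card_filter, sum_pos]
  rfl

lemma F_block {r u : ℕ} (hu : 1 ≤ u) (ℓ w : ℕ) :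
    ∑ v ∈ range (2 ^ r), F ℓ w (u * 2 ^ r + v) = ∑ j ∈ Icc 1 (dl u + r), cnt r u ℓ j w := by
  have h1 : ∑ v ∈ range (2 ^ r), F ℓ w (u * 2 ^ r + v) = ∑ v ∈ range (2 ^ r),
      ∑ j ∈ Icc 1 (dl u + r), if X ℓ j (u * 2 ^ r + v) = w then 1 else 0 := by
    apply sum_congr rfl
    intro v hv
    rw [F, dl_block hu (mem_range.1 hv)]
  rw [h1, sum_comm]
  apply sum_congr rfl
  intro j _
  rw [cnt, card_filter]

lemma sum_blocks (f : ℕ → ℕ) (r U : ℕ) :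
    ∑ m ∈ range (U * 2 ^ r), f m = ∑ u ∈ range U, ∑ v ∈ range (2 ^ r), f (u * 2 ^ r + v) := by
  induction U with
  | zero => simp
  | succ U ih => rw [sum_range_succ, ← ih, add_mul, one_mul, sum_range_add]

lemma dl_one : dl 1 = 1 := by simp [dl]

lemma low_eq (ℓ w r : ℕ) :
    ∑ m ∈ range (2 ^ r), F ℓ w m = ∑ r' ∈ range r, ∑ j ∈ Icc 1 (1 + r'), cnt r' 1 ℓ j w := by
  induction r with
  | zero => simp [F, dl_zero]
  | succ r ih =>
    rw [sum_range_succ, ← ih, pow_succ, mul_two, sum_range_add]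
    congr 1
    have := F_block (r := r) (u := 1) le_rfl ℓ w
    rw [dl_one, one_mul] at this
    exact this

/-- the low part -/
def low (ℓ r w : ℕ) : ℕ := ∑ r' ∈ range r, ∑ j ∈ Icc 1 (1 + r'), cnt r' 1 ℓ j w

lemma sum_low (ℓ r : ℕ) : ∑ w ∈ range (2 ^ ℓ), low ℓ r w ≤ r * 2 ^ r := by
  unfold low
  rw [sum_comm]
  have h1 : ∀ r' ∈ range r, ∑ w ∈ range (2 ^ ℓ), ∑ j ∈ Icc 1 (1 + r'), cnt r' 1 ℓ j w
      ≤ r * 2 ^ r' := by
    intro r' hr'
    rw [sum_comm]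
    simp only [sum_cnt, sum_const, Nat.card_Icc, smul_eq_mul]
    have := mem_range.1 hr'
    exact Nat.mul_le_mul_right _ (by omega)
  refine (sum_le_sum h1).trans ?_
  rw [← mul_sum]
  apply Nat.mul_le_mul_left
  have := Nat.geomSum_eq (m := 2) le_rfl r
  rw [this]
  simp

lemma low_le {ℓ r w : ℕ} : low ℓ r w ≤ r * (r + 2 ^ (r + 1 - ℓ) + r * 2 ^ ℓ) := by
  unfold low
  have h1 : ∀ r' ∈ range r, ∑ j ∈ Icc 1 (1 + r'), cnt r' 1 ℓ j w
      ≤ r * (2 ^ (r' + 1 - ℓ) + 2 ^ ℓ) := by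
    intro r' hr'
    have hr := mem_range.1 hr'
    have h2 : ∀ j ∈ Icc 1 (1 + r'), cnt r' 1 ℓ j w ≤ 2 ^ (r' + 1 - ℓ) + 2 ^ ℓ := by
      intro j hj
      rw [mem_Icc] at hj
      rcases le_or_gt ℓ r' with h | h
      · have h3 := cnt_le (r := r') (u := 1) (w := w) le_rfl hj.1 (by rw [dl_one]; omega) h
        rw [dl_one] at h3
        have : 1 ≤ 2 ^ ℓ := Nat.one_le_two_pow
        omega
      · have h3 : cnt r' 1 ℓ j w ≤ 2 ^ r' := by
          unfold cnt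
          refine (card_filter_le _ _).trans ?_
          rw [card_range]
        have h4 : 2 ^ r' ≤ 2 ^ ℓ := Nat.pow_le_pow_right (by norm_num) h.le
        have h5 : 0 ≤ 2 ^ (r' + 1 - ℓ) := Nat.zero_le _
        exact (h3.trans h4).trans (Nat.le_add_left _ _)
    refine (sum_le_card_nsmul _ _ _ h2).trans ?_
    rw [Nat.card_Icc, smul_eq_mul]
    exact Nat.mul_le_mul_right _ (by omega)
  refine (sum_le_sum h1).trans ?_
  rw [← mul_sum, sum_add_distrib, sum_const, card_range, smul_eq_mul]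
  apply Nat.mul_le_mul_left
  apply Nat.add_le_add_right
  have h5 : ∀ s : ℕ, ∑ i ∈ range s, 2 ^ (i + 1 - ℓ) ≤ s + 2 ^ (s + 1 - ℓ) := by
    intro s
    induction s with
    | zero => simp
    | succ s ih =>
      rw [sum_range_succ]
      rcases le_or_gt ℓ (s + 1) with h | h
      · rw [show s + 1 + 1 - ℓ = (s + 1 - ℓ) + 1 by omega, pow_succ]
        omega
      · rw [show s + 1 - ℓ = 0 by omega] at ih ⊢
        rw [show s + 1 + 1 - ℓ = 0 by omega]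
        simp only [pow_zero] at ih ⊢
        omega
  exact h5 r

lemma sum_three {f : ℕ → ℕ} {ℓ r c B1 B2 : ℕ} (_hr : ℓ ≤ r)
    (h0 : ∀ j, ℓ ≤ j → j ≤ r → f j = 0) (h1 : ∀ j, 1 ≤ j → j + c ≤ ℓ → f j ≤ B1)
    (h2 : ∀ j, 1 ≤ j → j ≤ c + r → ℓ < j + c → (j < ℓ ∨ r < j) → f j ≤ B2) (_hc : 1 ≤ c) :
    ∑ j ∈ Icc 1 (c + r), f j ≤ ℓ * B1 + 2 * c * B2 := by
  have h3 : ∀ j ∈ Icc 1 (c + r), f j ≤ (if j ∈ Icc 1 ℓ then B1 else 0)
      + (if j ∈ Ioo (ℓ - c) ℓ ∪ Ioc r (c + r) then B2 else 0) := by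
    intro j hj
    rw [mem_Icc] at hj
    by_cases hA : j + c ≤ ℓ
    · have := h1 j hj.1 hA
      rw [if_pos (mem_Icc.2 ⟨hj.1, by omega⟩)]
      omega
    · by_cases hB : ℓ ≤ j ∧ j ≤ r
      · rw [h0 j hB.1 hB.2]; omega
      · have h4 := h2 j hj.1 hj.2 (by omega) (by omega)
        have h5 : j ∈ Ioo (ℓ - c) ℓ ∪ Ioc r (c + r) := by
          rw [mem_union, mem_Ioo, mem_Ioc]
          omega
        rw [if_pos h5]
        omega
  refine (sum_le_sum h3).trans ?_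
  rw [sum_add_distrib, ← sum_filter, ← sum_filter, sum_const, sum_const, smul_eq_mul, smul_eq_mul]
  apply Nat.add_le_add
  · apply Nat.mul_le_mul_right
    refine (card_le_card (filter_mem_eq_inter.le.trans inter_subset_right)).trans ?_
    simp
  · apply Nat.mul_le_mul_right
    refine (card_le_card (filter_mem_eq_inter.le.trans inter_subset_right)).trans ?_
    refine (card_union_le _ _).trans ?_
    rw [Nat.card_Ioo, Nat.card_Ioc]
    omega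

/-- the main part of the count -/
noncomputable def phi (r ℓ u j w : ℕ) : ℝ :=
  if ℓ ≤ j then (if j ≤ r then 1 else 0)
  else if j + dl u ≤ ℓ ∧ w / 2 ^ (ℓ - j - dl u) % 2 ^ dl u = u then 2 ^ dl u else 0

/-- the error part of the count -/
def bet (r ℓ u j w : ℕ) : ℕ :=
  if ℓ ≤ j ∧ j ≤ r then 0 else if j + dl u ≤ ℓ then
    (if X ℓ j (u * 2 ^ r + (2 ^ r - 1)) = w then 1 else 0) else cnt r u ℓ j w

lemma phi_nonneg (r ℓ u j w : ℕ) : 0 ≤ phi r ℓ u j w := by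
  unfold phi
  split_ifs <;> positivity

lemma cnt_le_phi {r ℓ u j w : ℕ} (hu : 1 ≤ u) (hj : 1 ≤ j) (hr : ℓ ≤ r) :
    (cnt r u ℓ j w : ℝ) ≤ 2 ^ (r - ℓ) * phi r ℓ u j w + bet r ℓ u j w := by
  have hc := dl_pos hu
  by_cases h1 : ℓ ≤ j ∧ j ≤ r
  · have h2 := cnt_inner (w := w) hu h1.1 h1.2
    unfold phi bet
    rw [if_pos h1.1, if_pos h1.2, if_pos h1]
    push_cast
    have h3 : (cnt r u ℓ j w : ℝ) ≤ 2 ^ (r - ℓ) := by exact_mod_cast h2
    linarith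
  · by_cases h2 : j + dl u ≤ ℓ
    · have h3 := cnt'_cross (w := w) hu hj h2 hr
      have e1 : ¬ ℓ ≤ j := by omega
      rw [cnt_split]
      unfold phi bet
      rw [if_neg h1, if_pos h2, if_neg e1]
      push_cast
      by_cases h4 : w / 2 ^ (ℓ - j - dl u) % 2 ^ dl u = u
      · rw [if_pos h4] at h3
        have hp : j + dl u ≤ ℓ ∧ w / 2 ^ (ℓ - j - dl u) % 2 ^ dl u = u := ⟨h2, h4⟩
        rw [if_pos hp]
        have h5 : (cnt' r u ℓ j w : ℝ) ≤ 2 ^ (r + dl u - ℓ) := by exact_mod_cast h3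
        rw [show r + dl u - ℓ = (r - ℓ) + dl u by omega, pow_add] at h5
        linarith
      · rw [if_neg h4] at h3
        have hn : ¬ (j + dl u ≤ ℓ ∧ w / 2 ^ (ℓ - j - dl u) % 2 ^ dl u = u) := fun h => h4 h.2
        rw [if_neg hn]
        have h5 : (cnt' r u ℓ j w : ℝ) ≤ 0 := by exact_mod_cast h3
        linarith
    · unfold bet
      rw [if_neg h1, if_neg h2]
      have := mul_nonneg (by positivity : (0 : ℝ) ≤ 2 ^ (r - ℓ)) (phi_nonneg r ℓ u j w)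
      linarith

lemma bet_sum_le {r ℓ u Q w : ℕ} (hu : 1 ≤ u) (hr : ℓ ≤ r) (hQ : dl u ≤ Q) :
    ∑ j ∈ Icc 1 (dl u + r), bet r ℓ u j w ≤ ℓ + 2 * Q * (2 ^ (r + Q - ℓ) + 1) := by
  have h := sum_three (f := fun j => bet r ℓ u j w) (c := dl u) (B1 := 1)
    (B2 := 2 ^ (r + Q - ℓ) + 1) hr ?_ ?_ ?_ (dl_pos hu)
  · refine h.trans ?_
    rw [mul_one]
    apply Nat.add_le_add_left
    exact Nat.mul_le_mul_right _ (Nat.mul_le_mul_left _ hQ)
  · intro j h1 h2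
    simp only [bet]
    rw [if_pos ⟨h1, h2⟩]
  · intro j h1 h2
    simp only [bet]
    split_ifs <;> omega
  · intro j h1 h2 h3 h4
    simp only [bet]
    have h5 := cnt_le (w := w) hu h1 h2 hr
    have h6 : 2 ^ (r + dl u - ℓ) ≤ 2 ^ (r + Q - ℓ) := Nat.pow_le_pow_right (by norm_num) (by omega)
    split_ifs <;> omega

lemma bet_total {r ℓ u Q : ℕ} (hu : 1 ≤ u) (hr : ℓ ≤ r) (hQ : dl u ≤ Q) :
    ∑ w ∈ range (2 ^ ℓ), ∑ j ∈ Icc 1 (dl u + r), bet r ℓ u j w ≤ ℓ + 2 * Q * 2 ^ r := by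
  rw [sum_comm]
  have h := sum_three (f := fun j => ∑ w ∈ range (2 ^ ℓ), bet r ℓ u j w) (c := dl u) (B1 := 1)
    (B2 := 2 ^ r) hr ?_ ?_ ?_ (dl_pos hu)
  · refine h.trans ?_
    rw [mul_one]
    apply Nat.add_le_add_left
    exact Nat.mul_le_mul_right _ (Nat.mul_le_mul_left _ hQ)
  · intro j h1 h2
    apply sum_eq_zero
    intro w _
    unfold bet
    rw [if_pos ⟨h1, h2⟩]
  · intro j h1 h2
    have h3 : ∀ w ∈ range (2 ^ ℓ), bet r ℓ u j w
        ≤ if X ℓ j (u * 2 ^ r + (2 ^ r - 1)) = w then 1 else 0 := by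
      intro w _
      unfold bet
      split_ifs <;> omega
    refine (sum_le_sum h3).trans ?_
    rw [sum_ite_eq]
    split_ifs <;> omega
  · intro j h1 h2 h3 h4
    have h5 : ∀ w ∈ range (2 ^ ℓ), bet r ℓ u j w ≤ cnt r u ℓ j w := by
      intro w _
      have e1 : ¬ (ℓ ≤ j ∧ j ≤ r) := by omega
      have e2 : ¬ (j + dl u ≤ ℓ) := by omega
      unfold bet
      rw [if_neg e1, if_neg e2]
    refine (sum_le_sum h5).trans ?_
    rw [sum_cnt]

/-- the error function -/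
def bb (r ℓ U w : ℕ) : ℕ := low ℓ r w + ∑ j ∈ Icc 1 (dl U + r), cnt r U ℓ j w
  + ∑ u ∈ Ico 1 U, ∑ j ∈ Icc 1 (dl u + r), bet r ℓ u j w

lemma bb_le {r ℓ U Q w : ℕ} (hU : 1 ≤ U) (hr : ℓ ≤ r) (hQ : U < 2 ^ Q) :
    bb r ℓ U w ≤ r * (r + 2 ^ (r + 1 - ℓ) + r * 2 ^ ℓ) + (Q + r) * (2 ^ (r + Q - ℓ) + 1)
      + 2 ^ Q * (ℓ + 2 * Q * (2 ^ (r + Q - ℓ) + 1)) := by
  unfold bb
  have hdU : dl U ≤ Q := dl_le_iff.2 hQ
  apply Nat.add_le_add
  · apply Nat.add_le_add low_le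
    have h1 : ∀ j ∈ Icc 1 (dl U + r), cnt r U ℓ j w ≤ 2 ^ (r + Q - ℓ) + 1 := by
      intro j hj
      rw [mem_Icc] at hj
      have h5 := cnt_le (w := w) hU hj.1 hj.2 hr
      have h6 : 2 ^ (r + dl U - ℓ) ≤ 2 ^ (r + Q - ℓ) :=
        Nat.pow_le_pow_right (by norm_num) (by omega)
      omega
    refine (sum_le_card_nsmul _ _ _ h1).trans ?_
    rw [Nat.card_Icc, smul_eq_mul]
    exact Nat.mul_le_mul_right _ (by omega)
  · have h1 : ∀ u ∈ Ico 1 U, ∑ j ∈ Icc 1 (dl u + r), bet r ℓ u j w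
        ≤ ℓ + 2 * Q * (2 ^ (r + Q - ℓ) + 1) := by
      intro u hu
      rw [mem_Ico] at hu
      exact bet_sum_le hu.1 hr (dl_le_iff.2 (by omega))
    refine (sum_le_card_nsmul _ _ _ h1).trans ?_
    rw [Nat.card_Ico, smul_eq_mul]
    exact Nat.mul_le_mul_right _ (by omega)

lemma bb_total {r ℓ U Q : ℕ} (hr : ℓ ≤ r) (hQ : U < 2 ^ Q) :
    ∑ w ∈ range (2 ^ ℓ), bb r ℓ U w ≤ r * 2 ^ r + (Q + r) * 2 ^ r
      + 2 ^ Q * (ℓ + 2 * Q * 2 ^ r) := by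
  unfold bb
  have hdU : dl U ≤ Q := dl_le_iff.2 hQ
  rw [sum_add_distrib, sum_add_distrib]
  apply Nat.add_le_add
  · apply Nat.add_le_add (sum_low ℓ r)
    rw [sum_comm]
    simp only [sum_cnt, sum_const, Nat.card_Icc, smul_eq_mul]
    exact Nat.mul_le_mul_right _ (by omega)
  · rw [sum_comm]
    have h1 : ∀ u ∈ Ico 1 U, ∑ w ∈ range (2 ^ ℓ), ∑ j ∈ Icc 1 (dl u + r), bet r ℓ u j w
        ≤ ℓ + 2 * Q * 2 ^ r := by
      intro u hu
      rw [mem_Ico] at hu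
      exact bet_total hu.1 hr (dl_le_iff.2 (by omega))
    refine (sum_le_card_nsmul _ _ _ h1).trans ?_
    rw [Nat.card_Ico, smul_eq_mul]
    exact Nat.mul_le_mul_right _ (by omega)

/-- types of windows -/
def TT (r U : ℕ) : Finset (Σ _ : ℕ, ℕ) := (Ico 1 U).sigma fun u => Icc 1 (dl u + r)

/-- the count is at most main part plus error -/
lemma n_le {ℓ r U M w : ℕ} (hU : 1 ≤ U) (hr : ℓ ≤ r) (hM : M ≤ (U + 1) * 2 ^ r) :
    (((range (pos M)).filter fun l => W ℓ l = w).card : ℝ)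
      ≤ 2 ^ (r - ℓ) * ∑ τ ∈ TT r U, phi r ℓ τ.1 τ.2 w + bb r ℓ U w := by
  have h1 : ((range (pos M)).filter fun l => W ℓ l = w).card
      ≤ low ℓ r w + (∑ u ∈ Ico 1 U, ∑ j ∈ Icc 1 (dl u + r), cnt r u ℓ j w)
        + ∑ j ∈ Icc 1 (dl U + r), cnt r U ℓ j w := by
    rw [n_eq]
    refine (sum_le_sum_of_subset (range_subset_range.2 hM)).trans ?_
    rw [sum_blocks, sum_range_succ, F_block hU]
    apply Nat.add_le_add_right
    rw [range_eq_Ico, sum_eq_sum_Ico_succ_bot (by omega)]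
    apply le_of_eq
    congr 1
    · rw [low, ← low_eq]
      simp
    · apply sum_congr rfl
      intro u hu
      rw [mem_Ico] at hu
      exact F_block (by omega) _ _
  have h2 : (∑ u ∈ Ico 1 U, ∑ j ∈ Icc 1 (dl u + r), (cnt r u ℓ j w : ℝ))
      ≤ 2 ^ (r - ℓ) * ∑ τ ∈ TT r U, phi r ℓ τ.1 τ.2 w
        + ∑ u ∈ Ico 1 U, ∑ j ∈ Icc 1 (dl u + r), (bet r ℓ u j w : ℝ) := by
    rw [TT, sum_sigma, mul_sum, ← sum_add_distrib]
    apply sum_le_sum
    intro u hu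
    rw [mem_Ico] at hu
    rw [mul_sum, ← sum_add_distrib]
    apply sum_le_sum
    intro j hj
    rw [mem_Icc] at hj
    exact cnt_le_phi hu.1 hj.1 hr
  have h3 : (((range (pos M)).filter fun l => W ℓ l = w).card : ℝ)
      ≤ low ℓ r w + (∑ u ∈ Ico 1 U, ∑ j ∈ Icc 1 (dl u + r), (cnt r u ℓ j w : ℝ))
        + ∑ j ∈ Icc 1 (dl U + r), (cnt r U ℓ j w : ℝ) := by
    exact_mod_cast h1
  unfold bb
  push_cast
  linarith

end Pool.Agent.X194.Champ
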